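import Mathlib

set_option autoImplicit false

/-!
# MP_cb106b_nt: counting solutions.  The divisor bound
-/

namespace Pool.Agent.Work.MP_cb106b_nt.Ct

open Finset

/-- For every `ε > 0` the number of divisors of `N` is at most `C N ^ ε`. -/
theorem divisor_bound (ε : ℝ) (hε : 0 < ε) :
    ∃ C : ℝ, 1 ≤ C ∧ ∀ N : ℕ, 1 ≤ N → ((N.divisors.card : ℕ) : ℝ) ≤ C * (N : ℝ) ^ ε := by
  have hl2 : 0 < Real.log 2 := Real.log_pos (by norm_num)
  set c : ℝ := 1 + 1 / (ε * Real.log 2) with hc
  have hc1 : 1 ≤ c := by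
    have : 0 < 1 / (ε * Real.log 2) := by positivity
    linarith
  obtain ⟨P, hP⟩ := exists_nat_ge ((2 : ℝ) ^ (1 / ε))
  refine ⟨c ^ P, one_le_pow₀ hc1, ?_⟩
  intro N hN
  have hN0 : N ≠ 0 := by omega
  rw [Nat.card_divisors hN0]
  push_cast
  have key : ∀ p ∈ N.primeFactors, ((N.factorization p : ℝ) + 1) ≤
      (if p < P then c else 1) * ((p : ℝ) ^ (N.factorization p)) ^ ε := by
    intro p hp
    have hp2 : (2 : ℝ) ≤ p := by exact_mod_cast (Nat.prime_of_mem_primeFactors hp).two_le
    have hp0 : (0 : ℝ) < p := by linarith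
    set v : ℕ := N.factorization p with hv
    have hpow : ((p : ℝ) ^ v) ^ ε = ((p : ℝ) ^ ε) ^ v := by
      rw [← Real.rpow_natCast, ← Real.rpow_natCast, ← Real.rpow_mul hp0.le,
        ← Real.rpow_mul hp0.le, mul_comm]
    rw [hpow]
    split_ifs with h
    · have h1 : ((2 : ℝ) ^ ε) ^ v ≤ ((p : ℝ) ^ ε) ^ v :=
        pow_le_pow_left₀ (by positivity) (Real.rpow_le_rpow (by norm_num) hp2 hε.le) v
      have h2 : 1 + (v : ℝ) * (ε * Real.log 2) ≤ ((2 : ℝ) ^ ε) ^ v := by
        have h3 : ((2 : ℝ) ^ ε) ^ v = Real.exp ((v : ℝ) * (ε * Real.log 2)) := by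
          rw [Real.rpow_def_of_pos (by norm_num : (0 : ℝ) < 2), ← Real.exp_nat_mul]
          congr 1
          ring
        rw [h3]
        have := Real.add_one_le_exp ((v : ℝ) * (ε * Real.log 2))
        linarith
      have h4 : (v : ℝ) + 1 ≤ c * (1 + (v : ℝ) * (ε * Real.log 2)) := by
        have h5 : c * (1 + (v : ℝ) * (ε * Real.log 2)) =
            1 + (v : ℝ) * (ε * Real.log 2) + 1 / (ε * Real.log 2) + v := by
          rw [hc]
          field_simp
          ring
        rw [h5]
        have h6 : 0 ≤ (v : ℝ) * (ε * Real.log 2) := by positivity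
        have h7 : 0 ≤ 1 / (ε * Real.log 2) := by positivity
        linarith
      calc (v : ℝ) + 1 ≤ c * (1 + (v : ℝ) * (ε * Real.log 2)) := h4
        _ ≤ c * ((p : ℝ) ^ ε) ^ v := mul_le_mul_of_nonneg_left (h2.trans h1) (by linarith)
    · have hPp : (2 : ℝ) ^ (1 / ε) ≤ p := hP.trans (by exact_mod_cast not_lt.1 h)
      have h1 : (2 : ℝ) ≤ (p : ℝ) ^ ε := by
        calc (2 : ℝ) = ((2 : ℝ) ^ (1 / ε)) ^ ε := by
              rw [← Real.rpow_mul (by norm_num), one_div, inv_mul_cancel₀ hε.ne', Real.rpow_one]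
          _ ≤ (p : ℝ) ^ ε := Real.rpow_le_rpow (by positivity) hPp hε.le
      have h2 : ((v : ℝ) + 1) ≤ 2 ^ v := by
        have := Nat.lt_two_pow_self (n := v)
        exact_mod_cast this
      rw [one_mul]
      exact h2.trans (pow_le_pow_left₀ (by norm_num) h1 v)
  calc ∏ p ∈ N.primeFactors, ((N.factorization p : ℝ) + 1)
      ≤ ∏ p ∈ N.primeFactors, ((if p < P then c else 1) * ((p : ℝ) ^ (N.factorization p)) ^ ε) :=
        prod_le_prod (fun p _ => by positivity) key
    _ = (∏ p ∈ N.primeFactors, (if p < P then c else 1)) *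
        ∏ p ∈ N.primeFactors, ((p : ℝ) ^ (N.factorization p)) ^ ε := prod_mul_distrib
    _ ≤ c ^ P * (N : ℝ) ^ ε := by
        have h1 : ∏ p ∈ N.primeFactors, (if p < P then c else (1 : ℝ)) ≤ c ^ P := by
          rw [prod_ite, prod_const_one, mul_one, prod_const]
          refine pow_le_pow_right₀ hc1 ?_
          calc (N.primeFactors.filter (fun p => p < P)).card ≤ (range P).card :=
                card_le_card (fun p hp => by
                  rw [mem_filter] at hp
                  exact mem_range.2 hp.2)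
            _ = P := card_range P
        have h2 : ∏ p ∈ N.primeFactors, ((p : ℝ) ^ (N.factorization p)) ^ ε = (N : ℝ) ^ ε := by
          rw [Real.finset_prod_rpow _ _ (fun p _ => by positivity)]
          congr 1
          have := Nat.factorization_prod_pow_eq_self hN0
          conv_rhs => rw [← this]
          rw [Finsupp.prod, Nat.support_factorization]
          push_cast
          rfl
        rw [h2]
        exact mul_le_mul_of_nonneg_right h1 (by positivity)

end Pool.Agent.Work.MP_cb106b_nt.Ct
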