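import Mathlib

set_option autoImplicit false

/-!
# MP_cb106b_nt: counting solutions.  Products of the numbers 1 + 1/(a-1) close to k
-/

namespace Pool.Agent.Work.MP_cb106b_nt.Ct

open Finset

/-- weak majorization for logarithms of products -/
theorem major (n : ℕ) (x y : ℕ → ℝ) (hy : ∀ i < n, 0 < y i) (hx : ∀ i < n, 0 < x i)
    (hmono : ∀ i, i + 1 < n → y (i + 1) ≤ y i)
    (hR : ∀ t ≤ n, ∏ i ∈ range t, y i ≤ ∏ i ∈ range t, x i) :
    ∏ i ∈ range n, (1 + y i) ≤ ∏ i ∈ range n, (1 + x i) := by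
  set w : ℕ → ℝ := fun i => y i / (1 + y i) with hw
  set d : ℕ → ℝ := fun i => Real.log (x i) - Real.log (y i) with hd
  have hD : ∀ t ≤ n, 0 ≤ ∑ i ∈ range t, d i := by
    intro t ht
    have h1 : ∑ i ∈ range t, d i =
        Real.log (∏ i ∈ range t, x i) - Real.log (∏ i ∈ range t, y i) := by
      rw [Real.log_prod (fun i hi => (hx i (by rw [mem_range] at hi; omega)).ne'),
        Real.log_prod (fun i hi => (hy i (by rw [mem_range] at hi; omega)).ne'),
        ← sum_sub_distrib]
    rw [h1, sub_nonneg]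
    exact Real.log_le_log (prod_pos fun i hi => hy i (by rw [mem_range] at hi; omega)) (hR t ht)
  have hw0 : ∀ i < n, 0 ≤ w i := fun i hi => by
    have := hy i hi
    simp only [hw]
    positivity
  have hwm : ∀ i, i + 1 < n → w (i + 1) ≤ w i := by
    intro i hi
    have h1 := hy (i + 1) hi
    have h2 := hy i (by omega)
    have h3 := hmono i hi
    simp only [hw]
    rw [div_le_div_iff₀ (by linarith) (by linarith)]
    nlinarith
  have hclaim : ∀ t, t + 1 ≤ n →
      w t * ∑ i ∈ range (t + 1), d i ≤ ∑ i ∈ range (t + 1), w i * d i := by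
    intro t
    induction t with
    | zero => intro _; simp
    | succ t ih =>
      intro ht
      have ih' := ih (by omega)
      have h1 := hD (t + 1) (by omega)
      have h2 := hwm t (by omega)
      have h3 : w (t + 1) * ∑ i ∈ range (t + 1), d i ≤ w t * ∑ i ∈ range (t + 1), d i :=
        mul_le_mul_of_nonneg_right h2 h1
      rw [sum_range_succ (f := d), sum_range_succ (f := fun i => w i * d i), mul_add]
      linarith
  have hS : 0 ≤ ∑ i ∈ range n, w i * d i := by
    rcases Nat.eq_zero_or_pos n with h0 | h0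
    · subst h0; simp
    · obtain ⟨t, rfl⟩ : ∃ t, n = t + 1 := ⟨n - 1, by omega⟩
      exact (mul_nonneg (hw0 t (by omega)) (hD (t + 1) le_rfl)).trans (hclaim t le_rfl)
  have hpt : ∀ i ∈ range n, w i * d i ≤ Real.log (1 + x i) - Real.log (1 + y i) := by
    intro i hi
    rw [mem_range] at hi
    have hyi := hy i hi
    have hxi := hx i hi
    have h1 := Real.geom_mean_le_arith_mean2_weighted (w₁ := 1 / (1 + y i))
      (w₂ := y i / (1 + y i)) (p₁ := 1) (p₂ := x i / y i) (by positivity) (by positivity)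
      (by norm_num) (by positivity) (by field_simp)
    rw [Real.one_rpow, one_mul, mul_one] at h1
    have h2 : 1 / (1 + y i) + y i / (1 + y i) * (x i / y i) = (1 + x i) / (1 + y i) := by
      field_simp
    rw [h2] at h1
    have h3 := Real.log_le_log (Real.rpow_pos_of_pos (by positivity) _) h1
    rw [Real.log_rpow (by positivity), Real.log_div hxi.ne' hyi.ne',
      Real.log_div (by positivity) (by positivity)] at h3
    exact h3
  have hfin : 0 ≤ Real.log (∏ i ∈ range n, (1 + x i)) - Real.log (∏ i ∈ range n, (1 + y i)) := by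
    rw [Real.log_prod (fun i hi => by
        have := hx i (mem_range.1 hi); positivity),
      Real.log_prod (fun i hi => by
        have := hy i (mem_range.1 hi); positivity), ← sum_sub_distrib]
    exact hS.trans (sum_le_sum hpt)
  have h4 : (0 : ℝ) < ∏ i ∈ range n, (1 + x i) :=
    prod_pos fun i hi => by have := hx i (mem_range.1 hi); positivity
  have h5 : (0 : ℝ) < ∏ i ∈ range n, (1 + y i) :=
    prod_pos fun i hi => by have := hy i (mem_range.1 hi); positivity
  exact (Real.log_le_log_iff h5 h4).1 (by linarith)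

/-- the comparison sequence -/
noncomputable def cx (k : ℝ) (i : ℕ) : ℝ := if i = 0 then 3 * k / 4 - 1 else 1 / 2 ^ (2 ^ i)

theorem cx_pos (k : ℝ) (hk : 2 ≤ k) (i : ℕ) : 0 < cx k i := by
  unfold cx
  split_ifs
  · linarith
  · positivity

theorem cx_prod_add (k : ℝ) (t : ℕ) :
    ∏ i ∈ range (t + 1), (1 + cx k i) = k * (1 - 1 / 2 ^ (2 ^ (t + 1))) := by
  induction t with
  | zero => simp [cx]; ring
  | succ t ih =>
    rw [prod_range_succ, ih]
    have h1 : cx k (t + 1) = 1 / 2 ^ (2 ^ (t + 1)) := by simp [cx]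
    rw [h1]
    have h2 : (2 : ℝ) ^ (2 ^ (t + 1 + 1)) = (2 ^ (2 ^ (t + 1))) ^ 2 := by
      rw [← pow_mul, ← pow_succ]
    rw [h2]
    have h3 : (0 : ℝ) < 2 ^ (2 ^ (t + 1)) := by positivity
    field_simp
    ring

theorem cx_prod (k : ℝ) (t : ℕ) :
    ∏ i ∈ range (t + 1), cx k i = (3 * k - 4) / 2 ^ (2 ^ (t + 1)) := by
  induction t with
  | zero => simp [cx]; ring
  | succ t ih =>
    rw [prod_range_succ, ih]
    have h1 : cx k (t + 1) = 1 / 2 ^ (2 ^ (t + 1)) := by simp [cx]
    rw [h1]
    have h2 : (2 : ℝ) ^ (2 ^ (t + 1 + 1)) = (2 ^ (2 ^ (t + 1))) ^ 2 := by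
      rw [← pow_mul, ← pow_succ]
    rw [h2]
    have h3 : (0 : ℝ) < 2 ^ (2 ^ (t + 1)) := by positivity
    field_simp

/-- Curtiss type bound: if `k ∏ (a - 1) > ∏ a` then `k ∏ (a - 1) ≤ 2 ^ 2 ^ j (k ∏ (a - 1) - ∏ a)`. -/
theorem curtiss_real (k : ℕ) (hk : 2 ≤ k) (a : ℕ → ℕ) (j : ℕ) :
    (∀ i < j, 2 ≤ a i) → (∀ i, i + 1 < j → a i ≤ a (i + 1)) →
    (∏ i ∈ range j, (1 + 1 / ((a i : ℝ) - 1)) < k) → 1 ≤ j →
    ∏ i ∈ range j, (1 + 1 / ((a i : ℝ) - 1)) ≤ k * (1 - 1 / 2 ^ (2 ^ j)) := by
  induction j using Nat.strong_induction_on with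
  | _ j ih =>
  intro ha hm hlt hj
  have hkR : (2 : ℝ) ≤ k := by exact_mod_cast hk
  set y : ℕ → ℝ := fun i => 1 / ((a i : ℝ) - 1) with hy
  have ha1 : ∀ i < j, (1 : ℝ) ≤ (a i : ℝ) - 1 := by
    intro i hi
    have : (2 : ℝ) ≤ a i := by exact_mod_cast ha i hi
    linarith
  have hypos : ∀ i < j, 0 < y i := fun i hi => by
    have := ha1 i hi
    simp only [hy]
    positivity
  have hymono : ∀ i, i + 1 < j → y (i + 1) ≤ y i := by
    intro i hi
    have h1 := ha1 i (by omega)
    have h2 : (a i : ℝ) ≤ a (i + 1) := by exact_mod_cast hm i hi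
    simp only [hy]
    exact one_div_le_one_div_of_le (by linarith) (by linarith)
  by_contra hcon
  push Not at hcon
  obtain ⟨s, rfl⟩ : ∃ s, j = s + 1 := ⟨j - 1, by omega⟩
  rw [← cx_prod_add] at hcon
  -- the full product of the `y`
  have hFull : ∏ i ∈ range (s + 1), y i < ∏ i ∈ range (s + 1), cx k i := by
    rw [cx_prod]
    have hA : (0 : ℝ) < ∏ i ∈ range (s + 1), ((a i : ℝ) - 1) :=
      prod_pos fun i hi => by have := ha1 i (mem_range.1 hi); linarith
    have hprod1 : ∏ i ∈ range (s + 1), y i = 1 / ∏ i ∈ range (s + 1), ((a i : ℝ) - 1) := by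
      simp only [hy]
      rw [prod_div_distrib, prod_const_one]
    have hprod2 : ∏ i ∈ range (s + 1), (1 + y i) =
        (∏ i ∈ range (s + 1), (a i : ℝ)) / ∏ i ∈ range (s + 1), ((a i : ℝ) - 1) := by
      rw [← prod_div_distrib]
      refine prod_congr rfl fun i hi => ?_
      have := ha1 i (mem_range.1 hi)
      simp only [hy]
      field_simp
      ring
    have hlt' : ∏ i ∈ range (s + 1), (1 + y i) < k := hlt
    rw [hprod2] at hlt'
    rw [cx_prod_add, hprod2] at hcon
    rw [hprod1]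
    -- integrality
    have hint : (∏ i ∈ range (s + 1), (a i : ℝ)) + 1 ≤ k * ∏ i ∈ range (s + 1), ((a i : ℝ) - 1) := by
      have h1 : (∏ i ∈ range (s + 1), (a i : ℝ)) < k * ∏ i ∈ range (s + 1), ((a i : ℝ) - 1) := by
        rwa [div_lt_iff₀ hA] at hlt'
      have e1 : (∏ i ∈ range (s + 1), (a i : ℝ)) = ((∏ i ∈ range (s + 1), a i : ℕ) : ℝ) := by
        push_cast; rfl
      have e2 : (k : ℝ) * ∏ i ∈ range (s + 1), ((a i : ℝ) - 1) =
          ((k * ∏ i ∈ range (s + 1), (a i - 1) : ℕ) : ℝ) := by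
        push_cast
        congr 1
        refine prod_congr rfl fun i hi => ?_
        have := ha i (mem_range.1 hi)
        rw [Nat.cast_sub (by omega)]
        norm_num
      rw [e1, e2] at h1 ⊢
      exact_mod_cast h1
    rw [lt_div_iff₀ hA] at hcon
    have hpow : (0 : ℝ) < 2 ^ (2 ^ (s + 1)) := by positivity
    rw [div_lt_div_iff₀ hA hpow]
    -- `k A / 2^(2^(s+1)) > 1`
    have h3 : (k : ℝ) * (∏ i ∈ range (s + 1), ((a i : ℝ) - 1)) * (1 / 2 ^ (2 ^ (s + 1))) > 1 := by
      nlinarith
    have h4 : (2 : ℝ) ^ (2 ^ (s + 1)) < k * ∏ i ∈ range (s + 1), ((a i : ℝ) - 1) := by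
      rw [gt_iff_lt, mul_one_div, lt_div_iff₀ hpow, one_mul] at h3
      exact h3
    nlinarith
  -- the index where the quotient of the partial products is largest
  set R : ℕ → ℝ := fun t => (∏ i ∈ range t, y i) / ∏ i ∈ range t, cx k i with hR
  have hXp : ∀ t, 0 < ∏ i ∈ range t, cx (k : ℝ) i := fun t => prod_pos fun i _ => cx_pos k hkR i
  obtain ⟨κ, hκ1, hκ2⟩ := exists_max_image (range (s + 2)) R ⟨0, by simp⟩
  have hR0 : R 0 = 1 := by simp [hR]
  have hRj : R (s + 1) < 1 := by
    simp only [hR]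
    rw [div_lt_one (hXp _)]
    exact hFull
  have hκ3 : κ < s + 1 := by
    rw [mem_range] at hκ1
    by_contra h
    have h1 : κ = s + 1 := by omega
    have h2 := hκ2 0 (by simp)
    rw [h1, hR0] at h2
    linarith
  have hYp : ∀ t ≤ s + 1, 0 < ∏ i ∈ range t, y i := fun t ht =>
    prod_pos fun i hi => hypos i (by rw [mem_range] at hi; omega)
  have htail : ∏ i ∈ range (s + 1 - κ), (1 + y (κ + i)) ≤
      ∏ i ∈ range (s + 1 - κ), (1 + cx k (κ + i)) := by
    refine major (s + 1 - κ) (fun i => cx k (κ + i)) (fun i => y (κ + i))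
      (fun i hi => hypos _ (by omega)) (fun i _ => cx_pos k hkR _)
      (fun i hi => by
        have := hymono (κ + i) (by omega)
        rwa [add_assoc] at this) ?_
    intro t ht
    have h1 := hκ2 (κ + t) (by rw [mem_range]; omega)
    simp only [hR] at h1
    rw [div_le_div_iff₀ (hXp _) (hXp _), prod_range_add, prod_range_add] at h1
    have h2 := hYp κ (by omega)
    have h3 := hXp κ
    have h4 : (∏ i ∈ range κ, y i) * (∏ i ∈ range κ, cx (k : ℝ) i) *
        (∏ i ∈ range t, y (κ + i)) ≤ (∏ i ∈ range κ, y i) * (∏ i ∈ range κ, cx (k : ℝ) i) *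
        (∏ i ∈ range t, cx (k : ℝ) (κ + i)) := by
      calc _ = (∏ i ∈ range κ, y i) * (∏ i ∈ range t, y (κ + i)) *
            (∏ i ∈ range κ, cx (k : ℝ) i) := by ring
        _ ≤ (∏ i ∈ range κ, y i) * ((∏ i ∈ range κ, cx (k : ℝ) i) *
            (∏ i ∈ range t, cx (k : ℝ) (κ + i))) := h1
        _ = _ := by ring
    exact le_of_mul_le_mul_left h4 (mul_pos h2 h3)
  have hhead : ∏ i ∈ range κ, (1 + y i) ≤ ∏ i ∈ range κ, (1 + cx k i) := by
    rcases Nat.eq_zero_or_pos κ with h0 | h0
    · subst h0; simp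
    · have h1 := ih κ hκ3 (fun i hi => ha i (by omega)) (fun i hi => hm i (by omega)) ?_ h0
      · obtain ⟨u, rfl⟩ : ∃ u, κ = u + 1 := ⟨κ - 1, by omega⟩
        rw [cx_prod_add]
        exact h1
      · refine lt_of_le_of_lt ?_ hlt
        refine prod_le_prod_of_subset_of_one_le ?_ ?_ ?_
        · exact range_subset_range.2 (by omega)
        · intro i hi
          have := hypos i (by rw [mem_range] at hi; omega)
          simp only [hy] at this
          positivity
        · intro i hi _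
          have := hypos i (mem_range.1 hi)
          simp only [hy] at this
          linarith
  have hfinal : ∏ i ∈ range (s + 1), (1 + y i) ≤ ∏ i ∈ range (s + 1), (1 + cx k i) := by
    have e : s + 1 = κ + (s + 1 - κ) := by omega
    rw [e, prod_range_add, prod_range_add]
    refine mul_le_mul hhead htail ?_ ?_
    · exact prod_nonneg fun i hi => by
        have := hypos (κ + i) (by rw [mem_range] at hi; omega)
        positivity
    · exact prod_nonneg fun i _ => by
        have := cx_pos k hkR i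
        positivity
  exact absurd hcon (not_lt.2 hfinal)

end Pool.Agent.Work.MP_cb106b_nt.Ct
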