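import Pool.Agent.Work.MP_cb106b_nt.Ct.Rec
import Pool.Agent.Work.MP_cb106b_nt.Ct.DivB

set_option autoImplicit false

/-!
# MP_cb106b_nt: counting solutions.  The final bounds
-/

namespace Pool.Agent.Work.MP_cb106b_nt.Ct

open Finset

/-- the increasing lists of `K` integers `> 1` with `∏ (a - 1) ∣ ∏ a + 1` -/
def AllSol (K : ℕ) : Set (List ℕ) :=
  {l | l.length = K ∧ (1 :: l).IsChain (· < ·) ∧ Ph l ∣ l.prod + 1}

theorem prod_le_two_pow (l : List ℕ) (h : ∀ a ∈ l, 1 < a) : l.prod ≤ 2 ^ l.length * Ph l := by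
  induction l with
  | nil => simp [Ph]
  | cons a t ih =>
    have iht := ih (fun b hb => h b (List.mem_cons_of_mem _ hb))
    have ha := h a (List.mem_cons_self)
    rw [Ph_cons, List.prod_cons, List.length_cons, pow_succ]
    have h2 : a ≤ 2 * (a - 1) := by omega
    calc a * t.prod ≤ (2 * (a - 1)) * (2 ^ t.length * Ph t) := Nat.mul_le_mul h2 iht
      _ = _ := by ring

theorem AllSol_sub (K : ℕ) :
    AllSol K ⊆ ⋃ k ∈ Icc 2 (2 ^ K + 1), Sol K 1 k 1 := by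
  intro l hl
  obtain ⟨hlen, hch, k, hk⟩ := hl
  have hall := chain_all hch
  have hP := Ph_pos l hall
  have h1 := prod_le_two_pow l hall
  have h2 := Ph_le_prod l
  rw [hlen] at h1
  simp only [Set.mem_iUnion]
  refine ⟨k, ?_, hlen, hch, by rw [one_mul, hk, mul_comm]⟩
  rw [mem_Icc]
  constructor
  · by_contra hcon
    have : k ≤ 1 := by omega
    have : Ph l * k ≤ Ph l * 1 := Nat.mul_le_mul_left _ this
    omega
  · by_contra hcon
    have : 2 ^ K + 2 ≤ k := by omega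
    have h3 : Ph l * (2 ^ K + 2) ≤ Ph l * k := Nat.mul_le_mul_left _ this
    have h4 : Ph l * (2 ^ K + 2) = 2 ^ K * Ph l + 2 * Ph l := by ring
    omega

theorem sq_le_two_pow (K : ℕ) (hK : 4 ≤ K) : (K + 1) ^ 2 ≤ 2 ^ (K + 2) := by
  induction K, hK using Nat.le_induction with
  | base => norm_num
  | succ K hK ih =>
    rw [show K + 1 + 2 = (K + 2) + 1 by ring, pow_succ 2]
    nlinarith

theorem succ_le_two_pow (K : ℕ) : K + 1 ≤ 2 ^ K := by
  have := Nat.lt_two_pow_self (n := K)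
  omega

/-- explicit bound -/
theorem all_bound (ε C : ℝ) (hε : 0 < ε) (hC : 1 ≤ C)
    (hdiv : ∀ N : ℕ, 1 ≤ N → ((N.divisors.card : ℕ) : ℝ) ≤ C * (N : ℝ) ^ ε) (K : ℕ) (hK : 4 ≤ K) :
    Bd (AllSol K) (C * (2 : ℝ) ^ (ε * (2 * (K ^ 2 + K + 1) + 2 ^ K / 2)) *
      2 ^ (4 * K + 7 + K * (K + 2) ^ 2 + 2 ^ (K - 3))) := by
  have hK1 : K + 1 ≤ 2 ^ K := succ_le_two_pow K
  have hK1R : (K : ℝ) + 1 ≤ 2 ^ K := by exact_mod_cast hK1
  have hKp : ((K : ℝ) + 1) ^ K ≤ 2 ^ (K * K) := by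
    rw [pow_mul]
    exact pow_le_pow_left₀ (by positivity) hK1R K
  set Δ : ℝ := C * (2 : ℝ) ^ (ε * (2 * (K ^ 2 + K + 1) + 2 ^ K / 2)) with hΔd
  have hΔ0 : 0 ≤ Δ := by positivity
  set h : ℝ := 2 ^ (K + 3) with hh
  have hdK : ∀ k : ℕ, k ≤ 2 ^ (K + 1) → ∀ N : ℕ, 1 ≤ N →
      N ≤ (k * (K + 1) ^ K * 2 ^ (2 ^ (K - 2))) ^ 2 → (N.divisors.card : ℝ) ≤ Δ := by
    intro k hk N hN1 hN
    refine (hdiv N hN1).trans ?_
    rw [hΔd]
    refine mul_le_mul_of_nonneg_left ?_ (by linarith)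
    have h1 : (N : ℝ) ≤ 2 ^ (2 * (K ^ 2 + K + 1) + 2 ^ (K - 1)) := by
      have h2 : (N : ℝ) ≤ ((k : ℝ) * (K + 1) ^ K * 2 ^ (2 ^ (K - 2))) ^ 2 := by exact_mod_cast hN
      have hkR : (k : ℝ) ≤ 2 ^ (K + 1) := by exact_mod_cast hk
      refine h2.trans ?_
      calc ((k : ℝ) * (K + 1) ^ K * 2 ^ (2 ^ (K - 2))) ^ 2
          ≤ ((2 : ℝ) ^ (K + 1) * 2 ^ (K * K) * 2 ^ (2 ^ (K - 2))) ^ 2 := by gcongr
        _ = _ := by
            rw [← pow_add, ← pow_add, ← pow_mul]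
            congr 1
            have : 2 ^ (K - 1) = 2 ^ (K - 2) * 2 := by
              rw [← pow_succ]; congr 1; omega
            rw [this]
            ring
    have h3 : ((2 : ℝ) ^ (2 * (K ^ 2 + K + 1) + 2 ^ (K - 1))) =
        (2 : ℝ) ^ ((2 * (K ^ 2 + K + 1) + 2 ^ K / 2 : ℝ)) := by
      rw [← Real.rpow_natCast]
      congr 1
      push_cast
      have : (2 : ℝ) ^ K = 2 ^ (K - 1) * 2 := by
        rw [← pow_succ]; congr 1; omega
      rw [this]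
      ring
    calc (N : ℝ) ^ ε ≤ ((2 : ℝ) ^ ((2 * (K ^ 2 + K + 1) + 2 ^ K / 2 : ℝ))) ^ ε := by
          rw [← h3]
          exact Real.rpow_le_rpow (by positivity) h1 hε.le
      _ = _ := by
          rw [← Real.rpow_mul (by norm_num)]
          congr 1
          ring
  have hlog : ∀ k : ℕ, 2 ≤ k → k ≤ 2 ^ (K + 1) →
      1 + Real.log (K * (k * (K + 1) ^ K * 2 ^ (2 ^ K))) ≤ h := by
    intro k hk2 hk
    have hkR : (k : ℝ) ≤ 2 ^ (K + 1) := by exact_mod_cast hk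
    have hk0 : (0 : ℝ) < k := by exact_mod_cast (show 0 < k by omega)
    have hK0 : (0 : ℝ) < K := by exact_mod_cast (show 0 < K by omega)
    have h1 : (K : ℝ) * (k * (K + 1) ^ K * 2 ^ (2 ^ K)) ≤ 2 ^ ((K + 1) ^ 2 + 2 ^ K) := by
      calc (K : ℝ) * (k * (K + 1) ^ K * 2 ^ (2 ^ K))
          ≤ 2 ^ K * (2 ^ (K + 1) * 2 ^ (K * K) * 2 ^ (2 ^ K)) := by
            gcongr
            linarith
        _ = _ := by
            rw [← pow_add, ← pow_add, ← pow_add]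
            congr 1
            ring
    have h2 := Real.log_le_log (by positivity) h1
    rw [Real.log_pow] at h2
    have h3 : Real.log 2 ≤ 1 := by
      have := Real.log_two_lt_d9
      linarith
    have h4 : (((K + 1) ^ 2 + 2 ^ K : ℕ) : ℝ) ≤ 2 ^ (K + 2) + 2 ^ K := by
      have := sq_le_two_pow K hK
      have h5 : (((K + 1) ^ 2 : ℕ) : ℝ) ≤ ((2 ^ (K + 2) : ℕ) : ℝ) := by exact_mod_cast this
      push_cast at h5 ⊢
      linarith
    have h6 : (((K + 1) ^ 2 + 2 ^ K : ℕ) : ℝ) * Real.log 2 ≤ 2 ^ (K + 2) + 2 ^ K := by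
      have h7 : (0 : ℝ) ≤ (((K + 1) ^ 2 + 2 ^ K : ℕ) : ℝ) := by positivity
      nlinarith
    have h8 : (1 : ℝ) ≤ 2 ^ K := one_le_pow₀ (by norm_num)
    rw [hh, pow_add]
    have h9 : (2 : ℝ) ^ (K + 2) = 2 ^ K * 4 := by rw [pow_add]; norm_num
    rw [h9] at h6
    norm_num
    linarith
  have hU := Bd_union (Icc 2 (2 ^ K + 1)) (fun k => Sol K 1 k 1)
    (fun k => 4 * Δ * K * h * (K ^ 2 * h * k * (K + 1) ^ K) ^ (K - 4) *
      2 ^ (2 ^ (K - 3)) * (2 * k)) (by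
      intro k hk
      rw [mem_Icc] at hk
      have hk2 : k ≤ 2 ^ (K + 1) := by
        have : 1 ≤ 2 ^ K := Nat.one_le_two_pow
        rw [pow_succ]; omega
      exact count_k k K hk.1 hK Δ h hΔ0 (hdK k hk2) (hlog k hk.1 hk2))
  refine Bd.mono (Bd_sub hU (AllSol_sub K)) ?_
  have hterm : ∀ k ∈ Icc (2 : ℕ) (2 ^ K + 1),
      4 * Δ * K * h * (K ^ 2 * h * (k : ℝ) * (K + 1) ^ K) ^ (K - 4) *
      2 ^ (2 ^ (K - 3)) * (2 * (k : ℝ)) ≤
      Δ * 2 ^ (3 * K + 7 + K * (K + 2) ^ 2 + 2 ^ (K - 3)) := by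
    intro k hk
    rw [mem_Icc] at hk
    have hk2 : k ≤ 2 ^ (K + 1) := by
      have : 1 ≤ 2 ^ K := Nat.one_le_two_pow
      rw [pow_succ]; omega
    have hkR : (k : ℝ) ≤ 2 ^ (K + 1) := by exact_mod_cast hk2
    have hKR : (K : ℝ) ≤ 2 ^ K := by linarith
    have hG : (K : ℝ) ^ 2 * h * k * (K + 1) ^ K ≤ 2 ^ ((K + 2) ^ 2) := by
      calc (K : ℝ) ^ 2 * h * k * (K + 1) ^ K
          ≤ (2 ^ K) ^ 2 * 2 ^ (K + 3) * 2 ^ (K + 1) * 2 ^ (K * K) := by
            rw [hh]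
            gcongr
        _ = _ := by
            rw [← pow_mul, ← pow_add, ← pow_add, ← pow_add]
            congr 1
            ring
    have hGp : ((K : ℝ) ^ 2 * h * k * (K + 1) ^ K) ^ (K - 4) ≤ 2 ^ (K * (K + 2) ^ 2) := by
      calc ((K : ℝ) ^ 2 * h * k * (K + 1) ^ K) ^ (K - 4)
          ≤ ((2 : ℝ) ^ ((K + 2) ^ 2)) ^ (K - 4) := by
            apply pow_le_pow_left₀ (by positivity) hG
        _ = 2 ^ ((K + 2) ^ 2 * (K - 4)) := by rw [← pow_mul]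
        _ ≤ _ := by
            apply pow_le_pow_right₀ (by norm_num)
            rw [mul_comm]
            exact Nat.mul_le_mul_right _ (by omega)
    calc 4 * Δ * K * h * (K ^ 2 * h * k * (K + 1) ^ K) ^ (K - 4) * 2 ^ (2 ^ (K - 3)) * (2 * k)
        ≤ 4 * Δ * 2 ^ K * 2 ^ (K + 3) * 2 ^ (K * (K + 2) ^ 2) * 2 ^ (2 ^ (K - 3)) *
            (2 * 2 ^ (K + 1)) := by
          rw [hh] at hGp ⊢
          gcongr
      _ = Δ * (4 * 2 ^ K * 2 ^ (K + 3) * 2 ^ (K * (K + 2) ^ 2) * 2 ^ (2 ^ (K - 3)) *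
            (2 * 2 ^ (K + 1))) := by ring
      _ = _ := by
          congr 1
          rw [show (4 : ℝ) = 2 ^ 2 by norm_num]
          have e : (2 : ℝ) * 2 ^ (K + 1) = 2 ^ (K + 2) := by rw [← pow_succ']
          rw [e, ← pow_add, ← pow_add, ← pow_add, ← pow_add, ← pow_add]
          congr 1
          ring
  have hcard : ((Icc (2 : ℕ) (2 ^ K + 1)).card : ℝ) = 2 ^ K := by
    rw [Nat.card_Icc]
    push_cast [show 2 ^ K + 1 + 1 - 2 = 2 ^ K by omega]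
    rfl
  calc ∑ k ∈ Icc (2 : ℕ) (2 ^ K + 1),
        4 * Δ * K * h * (K ^ 2 * h * (k : ℝ) * (K + 1) ^ K) ^ (K - 4) *
      2 ^ (2 ^ (K - 3)) * (2 * (k : ℝ))
      ≤ ∑ _k ∈ Icc (2 : ℕ) (2 ^ K + 1), Δ * 2 ^ (3 * K + 7 + K * (K + 2) ^ 2 + 2 ^ (K - 3)) :=
        sum_le_sum hterm
    _ = 2 ^ K * (Δ * 2 ^ (3 * K + 7 + K * (K + 2) ^ 2 + 2 ^ (K - 3))) := by
        rw [sum_const, nsmul_eq_mul, hcard]
    _ = Δ * 2 ^ (4 * K + 7 + K * (K + 2) ^ 2 + 2 ^ (K - 3)) := by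
        rw [show 4 * K + 7 + K * (K + 2) ^ 2 + 2 ^ (K - 3) =
          K + (3 * K + 7 + K * (K + 2) ^ 2 + 2 ^ (K - 3)) by ring, pow_add 2 K]
        ring
    _ ≤ _ := le_of_eq (by rw [hΔd])

/-- the asymptotic bound for lists -/
theorem lists_bound (δ : ℝ) (hδ : 0 < δ) :
    ∃ K₀ : ℕ, ∀ K ≥ K₀, Bd (AllSol K) ((2 : ℝ) ^ ((1 / 8 + δ) * 2 ^ K)) := by
  obtain ⟨C, hC, hdiv⟩ := divisor_bound δ hδ
  set c : ℝ := Real.logb 2 C with hc
  have hc0 : 0 ≤ c := Real.logb_nonneg (by norm_num) hC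
  have hCc : C = (2 : ℝ) ^ c := by
    rw [hc, Real.rpow_logb (by norm_num) (by norm_num) (by linarith)]
  -- polynomial against exponential
  have hlim := tendsto_pow_const_div_const_pow_of_one_lt 3 (show (1 : ℝ) < 2 by norm_num)
  have hev : ∀ᶠ K : ℕ in Filter.atTop, (K : ℝ) ^ 3 / 2 ^ K < δ / 2 / (c + 6 * δ + 13) := by
    have hpos : 0 < δ / 2 / (c + 6 * δ + 13) := by positivity
    exact hlim.eventually_lt_const hpos
  obtain ⟨K₁, hK₁⟩ := Filter.eventually_atTop.1 hev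
  refine ⟨max K₁ 4, fun K hK => ?_⟩
  have hK4 : 4 ≤ K := le_trans (le_max_right _ _) hK
  have hKK := hK₁ K (le_trans (le_max_left _ _) hK)
  refine (all_bound δ C hδ hC hdiv K hK4).mono ?_
  have h2K : (0 : ℝ) < 2 ^ K := by positivity
  rw [div_lt_div_iff₀ h2K (by positivity)] at hKK
  have hK4R : (4 : ℝ) ≤ K := by exact_mod_cast hK4
  have hpoly : c + δ * (2 * (K ^ 2 + K + 1)) + (4 * K + 7 + K * (K + 2) ^ 2) ≤ δ / 2 * 2 ^ K := by
    have hK2 : (K : ℝ) ^ 2 ≤ K ^ 3 := by nlinarith [sq_nonneg (K : ℝ)]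
    have hK3 : (K : ℝ) ≤ K ^ 3 := by nlinarith [sq_nonneg (K : ℝ)]
    have hK4' : (1 : ℝ) ≤ K ^ 3 := by nlinarith
    have h1 : c ≤ c * K ^ 3 := by nlinarith
    have h2 : δ * (2 * ((K : ℝ) ^ 2 + K + 1)) ≤ 6 * δ * K ^ 3 := by nlinarith
    have h3 : (4 * (K : ℝ) + 7 + K * (K + 2) ^ 2) ≤ 13 * K ^ 3 := by
      have : (K : ℝ) * (K + 2) ^ 2 = K ^ 3 + 4 * K ^ 2 + 4 * K := by ring
      rw [this]
      nlinarith [sq_nonneg ((K : ℝ) - 4)]
    nlinarith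
  have hnat : ((2 : ℝ) ^ (4 * K + 7 + K * (K + 2) ^ 2 + 2 ^ (K - 3))) =
      (2 : ℝ) ^ ((4 * K + 7 + K * (K + 2) ^ 2 + 2 ^ K / 8 : ℝ)) := by
    rw [← Real.rpow_natCast]
    congr 1
    push_cast
    have : (2 : ℝ) ^ K = 2 ^ (K - 3) * 8 := by
      rw [show (8 : ℝ) = 2 ^ 3 by norm_num, ← pow_add]
      congr 1
      omega
    rw [this]
    ring
  rw [hnat, hCc, ← Real.rpow_add (by norm_num), ← Real.rpow_add (by norm_num)]
  apply Real.rpow_le_rpow_of_exponent_le (by norm_num)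
  linarith

/-- the totient of a product of distinct primes -/
theorem totient_list (l : List ℕ) (hp : ∀ p ∈ l, p.Prime) (hn : l.Nodup) :
    Nat.totient l.prod = Ph l := by
  induction l with
  | nil => simp [Ph]
  | cons a t ih =>
    rw [List.nodup_cons] at hn
    have ha := hp a (List.mem_cons_self)
    have hpt : ∀ p ∈ t, p.Prime := fun p h => hp p (List.mem_cons_of_mem _ h)
    have hco : Nat.Coprime a t.prod := by
      rw [Nat.coprime_list_prod_right_iff]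
      intro b hb
      exact (Nat.coprime_primes ha (hpt b hb)).2 (fun h => hn.1 (h ▸ hb))
    rw [List.prod_cons, Ph_cons, Nat.totient_mul hco, Nat.totient_prime ha, ih hpt hn.2]

theorem sqfree {n : ℕ} (h : Nat.totient n ∣ n + 1) : Squarefree n := by
  rw [Nat.squarefree_iff_prime_squarefree]
  intro p hp hpp
  have h1 : Nat.totient (p * p) ∣ Nat.totient n := Nat.totient_dvd_of_dvd hpp
  have h2 : p ∣ Nat.totient (p * p) := by
    refine ⟨p - 1, ?_⟩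
    rw [← pow_two, Nat.totient_prime_pow hp (by norm_num)]
    simp
  have h3 : p ∣ n + 1 := (h2.trans h1).trans h
  have h4 : p ∣ n := (Dvd.intro p rfl).trans hpp
  have h5 : p ∣ 1 := (Nat.dvd_add_right h4).1 h3
  exact hp.one_lt.ne' (Nat.dvd_one.1 h5)

theorem totient_sub (K : ℕ) :
    {n : ℕ | 2 ≤ n ∧ Nat.totient n ∣ n + 1 ∧ n.primeFactors.card = K} ⊆
      List.prod '' (AllSol K) := by
  rintro n ⟨hn, hd, hc⟩
  have hsq := sqfree hd
  have hn0 : n ≠ 0 := by omega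
  have hprime : ∀ p ∈ n.primeFactorsList, p.Prime := fun p hp => Nat.prime_of_mem_primeFactorsList hp
  have hnd : n.primeFactorsList.Nodup := (Nat.squarefree_iff_nodup_primeFactorsList hn0).1 hsq
  have hprod : n.primeFactorsList.prod = n := Nat.prod_primeFactorsList hn0
  refine ⟨n.primeFactorsList, ⟨?_, ?_, ?_⟩, hprod⟩
  · rw [← hc, Nat.primeFactors, List.toFinset_card_of_nodup hnd]
  · rw [List.isChain_iff_pairwise, List.pairwise_cons]
    refine ⟨fun a ha => (hprime a ha).one_lt, ?_⟩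
    have h1 : n.primeFactorsList.Pairwise (· ≤ ·) := by
      exact (Nat.primeFactorsList_sorted n).pairwise
    have h2 : n.primeFactorsList.Pairwise (· ≠ ·) := hnd
    exact (h1.and h2).imp (fun h => lt_of_le_of_ne h.1 h.2)
  · rw [← totient_list _ hprime hnd, hprod]
    exact hd

theorem finset_sub (K : ℕ) :
    {s : Finset ℕ | s.card = K ∧ (∀ a ∈ s, 2 ≤ a) ∧ (∏ a ∈ s, (a - 1)) ∣ (∏ a ∈ s, a) + 1} ⊆
      List.toFinset '' (AllSol K) := by
  rintro s ⟨hc, h2, hd⟩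
  refine ⟨s.sort (· ≤ ·), ⟨?_, ?_, ?_⟩, Finset.sort_toFinset s (· ≤ ·)⟩
  · rw [Finset.length_sort, hc]
  · rw [List.isChain_iff_pairwise, List.pairwise_cons]
    refine ⟨fun a ha => ?_, ?_⟩
    · have := h2 a ((Finset.mem_sort _).1 ha)
      omega
    · have h1 : (s.sort (· ≤ ·)).Pairwise (· ≤ ·) := Finset.pairwise_sort s (· ≤ ·)
      have h3 : (s.sort (· ≤ ·)).Pairwise (· ≠ ·) := Finset.sort_nodup s (· ≤ ·)
      exact (h1.and h3).imp (fun h => lt_of_le_of_ne h.1 h.2)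
  · have e1 : (s.sort (· ≤ ·)).prod = ∏ a ∈ s, a := by
      have := List.prod_toFinset (fun a : ℕ => a) (Finset.sort_nodup s (· ≤ ·))
      rw [Finset.sort_toFinset, List.map_id'] at this
      exact this.symm
    have e2 : Ph (s.sort (· ≤ ·)) = ∏ a ∈ s, (a - 1) := by
      have := List.prod_toFinset (fun a : ℕ => a - 1) (Finset.sort_nodup s (· ≤ ·))
      rw [Finset.sort_toFinset] at this
      exact this.symm
    rw [e1, e2]
    exact hd

/-- the result -/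
theorem main (δ : ℝ) (hδ : 0 < δ) : ∃ K₀ : ℕ, ∀ K ≥ K₀,
    ({n : ℕ | 2 ≤ n ∧ Nat.totient n ∣ n + 1 ∧ n.primeFactors.card = K}.Finite ∧
      ({n : ℕ | 2 ≤ n ∧ Nat.totient n ∣ n + 1 ∧ n.primeFactors.card = K}.ncard : ℝ) ≤
        (2 : ℝ) ^ ((1 / 8 + δ) * 2 ^ K)) ∧
    ({s : Finset ℕ | s.card = K ∧ (∀ a ∈ s, 2 ≤ a) ∧
      (∏ a ∈ s, (a - 1)) ∣ (∏ a ∈ s, a) + 1}.Finite ∧
      ({s : Finset ℕ | s.card = K ∧ (∀ a ∈ s, 2 ≤ a) ∧
        (∏ a ∈ s, (a - 1)) ∣ (∏ a ∈ s, a) + 1}.ncard : ℝ) ≤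
        (2 : ℝ) ^ ((1 / 8 + δ) * 2 ^ K)) := by
  obtain ⟨K₀, hK₀⟩ := lists_bound δ hδ
  refine ⟨K₀, fun K hK => ?_⟩
  obtain ⟨hf, hb⟩ := hK₀ K hK
  refine ⟨⟨(hf.image _).subset (totient_sub K), le_trans ?_ hb⟩,
    ⟨(hf.image _).subset (finset_sub K), le_trans ?_ hb⟩⟩
  · exact_mod_cast (Set.ncard_le_ncard (totient_sub K) (hf.image _)).trans (Set.ncard_image_le hf)
  · exact_mod_cast (Set.ncard_le_ncard (finset_sub K) (hf.image _)).trans (Set.ncard_image_le hf)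

end Pool.Agent.Work.MP_cb106b_nt.Ct
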