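import Pool.Agent.Work.MP_cb106b_nt.Ct.Fin

set_option autoImplicit false

/-!
# MP_cb106b_nt: at most `K` prime factors
-/

namespace Pool.Agent.Work.MP_cb106b_nt.Ct

open Finset

/-- a solution with `K` numbers gives one with `K + 1` numbers -/
def ext (l : List ℕ) : List ℕ := l ++ [l.prod + 2]

theorem ext_inj : Function.Injective ext := fun a b h => by
  have h1 := congrArg List.dropLast h
  simpa [ext] using h1

theorem ext_sub (K : ℕ) : ext '' AllSol K ⊆ AllSol (K + 1) := by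
  rintro _ ⟨l, ⟨hlen, hch, hd⟩, rfl⟩
  have hall := chain_all hch
  have hpos : 0 < l.prod := lt_of_lt_of_le (Ph_pos l hall) (Ph_le_prod l)
  refine ⟨by simp [ext, hlen], ?_, ?_⟩
  · rw [List.isChain_iff_pairwise] at hch ⊢
    have e : (1 :: ext l) = (1 :: l) ++ [l.prod + 2] := by simp [ext]
    rw [e, List.pairwise_append]
    refine ⟨hch, List.pairwise_singleton _ _, ?_⟩
    intro a ha b hb
    rw [List.mem_singleton] at hb
    subst hb
    rcases List.mem_cons.1 ha with rfl | ha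
    · omega
    · have := Nat.le_of_dvd hpos (List.dvd_prod ha)
      omega
  · have e1 : Ph (ext l) = Ph l * (l.prod + 1) := by
      simp [ext, Ph]
    have e2 : (ext l).prod + 1 = (l.prod + 1) * (l.prod + 1) := by
      simp only [ext, List.prod_append, List.prod_singleton]
      ring
    rw [e1, e2]
    exact Nat.mul_dvd_mul_right hd _

theorem Bd_down {K : ℕ} {B : ℝ} (h : Bd (AllSol (K + 1)) B) : Bd (AllSol K) B := by
  have hf : (ext '' AllSol K).Finite := h.1.subset (ext_sub K)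
  refine ⟨Set.Finite.of_finite_image hf ext_inj.injOn, le_trans ?_ h.2⟩
  rw [← Set.ncard_image_of_injective _ ext_inj]
  exact_mod_cast Set.ncard_le_ncard (ext_sub K) h.1

theorem Bd_le {K : ℕ} {B : ℝ} (h : Bd (AllSol K) B) (j : ℕ) (hj : j ≤ K) : Bd (AllSol j) B := by
  induction K, hj using Nat.le_induction with
  | base => exact h
  | succ n hn ih => exact ih (Bd_down h)

theorem totient_sub_le (K : ℕ) :
    {n : ℕ | Nat.totient n ∣ n + 1 ∧ n.primeFactors.card ≤ K} ⊆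
      List.prod '' (⋃ j ∈ range (K + 1), AllSol j) := by
  rintro n ⟨hd, hc⟩
  have hn0 : n ≠ 0 := by
    rintro rfl
    simp at hd
  rcases Nat.lt_or_ge n 2 with h2 | h2
  · have h1 : n = 1 := by omega
    subst h1
    refine ⟨[], ?_, by simp⟩
    simp only [Set.mem_iUnion]
    refine ⟨0, by simp, ⟨rfl, by simp, by simp [Ph]⟩⟩
  · obtain ⟨l, hl, hln⟩ := totient_sub n.primeFactors.card ⟨h2, hd, rfl⟩
    refine ⟨l, ?_, hln⟩
    simp only [Set.mem_iUnion]
    exact ⟨n.primeFactors.card, by rw [mem_range]; omega, hl⟩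

theorem at_most (δ : ℝ) (hδ : 0 < δ) : ∃ K₀ : ℕ, ∀ K ≥ K₀,
    {n : ℕ | Nat.totient n ∣ n + 1 ∧ n.primeFactors.card ≤ K}.Finite ∧
      ({n : ℕ | Nat.totient n ∣ n + 1 ∧ n.primeFactors.card ≤ K}.ncard : ℝ) ≤
        (2 : ℝ) ^ ((1 / 8 + δ) * 2 ^ K) := by
  obtain ⟨K₁, hK₁⟩ := lists_bound (δ / 2) (by positivity)
  have hlim := tendsto_pow_const_div_const_pow_of_one_lt 1 (show (1 : ℝ) < 2 by norm_num)
  have hev : ∀ᶠ K : ℕ in Filter.atTop, (K : ℝ) ^ 1 / 2 ^ K < δ / 2 :=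
    hlim.eventually_lt_const (by positivity)
  obtain ⟨K₂, hK₂⟩ := Filter.eventually_atTop.1 hev
  refine ⟨max K₁ K₂, fun K hK => ?_⟩
  have hB := hK₁ K (le_trans (le_max_left _ _) hK)
  have hP := hK₂ K (le_trans (le_max_right _ _) hK)
  have hU := Bd_union (range (K + 1)) AllSol
    (fun _ => (2 : ℝ) ^ ((1 / 8 + δ / 2) * 2 ^ K))
    (fun j hj => Bd_le hB j (by rw [mem_range] at hj; omega))
  rw [sum_const, card_range, nsmul_eq_mul] at hU
  have h2K : (0 : ℝ) < 2 ^ K := by positivity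
  rw [pow_one, div_lt_iff₀ h2K] at hP
  have hfin : ((K + 1 : ℕ) : ℝ) * (2 : ℝ) ^ ((1 / 8 + δ / 2) * 2 ^ K) ≤
      (2 : ℝ) ^ ((1 / 8 + δ) * 2 ^ K) := by
    have h1 : ((K + 1 : ℕ) : ℝ) ≤ (2 : ℝ) ^ (K : ℝ) := by
      rw [Real.rpow_natCast]
      exact_mod_cast succ_le_two_pow K
    calc ((K + 1 : ℕ) : ℝ) * (2 : ℝ) ^ ((1 / 8 + δ / 2) * 2 ^ K)
        ≤ (2 : ℝ) ^ (K : ℝ) * (2 : ℝ) ^ ((1 / 8 + δ / 2) * 2 ^ K) := by gcongr
      _ = (2 : ℝ) ^ ((K : ℝ) + (1 / 8 + δ / 2) * 2 ^ K) := by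
          rw [Real.rpow_add (by norm_num)]
      _ ≤ _ := by
          apply Real.rpow_le_rpow_of_exponent_le (by norm_num)
          linarith
  have hS := totient_sub_le K
  refine ⟨(hU.1.image _).subset hS, le_trans ?_ (hU.2.trans hfin)⟩
  exact_mod_cast (Set.ncard_le_ncard hS (hU.1.image _)).trans (Set.ncard_image_le hU.1)

end Pool.Agent.Work.MP_cb106b_nt.Ct
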