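import Mathlib

set_option autoImplicit false

/-!
# MP_cb106b_nt: counting solutions.  Completions of a prefix
-/

namespace Pool.Agent.Work.MP_cb106b_nt.Ct

/-- product of the numbers `a - 1` -/
def Ph (l : List ℕ) : ℕ := (l.map (fun a => a - 1)).prod

theorem Ph_cons (a : ℕ) (l : List ℕ) : Ph (a :: l) = (a - 1) * Ph l := by
  simp [Ph]

theorem Ph_nil : Ph [] = 1 := by simp [Ph]

/-- increasing lists of `r` numbers larger than `L` which complete the prefix with product `m` and
`F = k ∏ (a - 1)` to a solution -/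
def Sol (r m F L : ℕ) : Set (List ℕ) :=
  {l | l.length = r ∧ (L :: l).IsChain (· < ·) ∧ F * Ph l = m * l.prod + 1}

theorem chain_all {L : ℕ} {l : List ℕ} (h : (L :: l).IsChain (· < ·)) : ∀ a ∈ l, L < a := by
  have := (List.isChain_iff_pairwise.1 h)
  rw [List.pairwise_cons] at this
  exact this.1

/-- Bernoulli -/
theorem bern (p : ℕ) (l : List ℕ) (h : ∀ a ∈ l, p ≤ a) :
    p * l.prod ≤ p * Ph l + l.length * l.prod := by
  induction l with
  | nil => simp [Ph]
  | cons a t ih =>
    have iht := ih (fun b hb => h b (List.mem_cons_of_mem _ hb))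
    have ha := h a (List.mem_cons_self)
    rw [Ph_cons, List.prod_cons, List.length_cons]
    rcases Nat.eq_zero_or_pos a with h0 | h0
    · subst h0; simp
    · obtain ⟨b, rfl⟩ : ∃ b, a = b + 1 := ⟨a - 1, by omega⟩
      simp only [Nat.add_sub_cancel]
      nlinarith [Nat.mul_le_mul_left b iht, Nat.mul_le_mul_right t.prod ha,
        Nat.zero_le (t.length * t.prod)]

theorem Ph_le_prod (l : List ℕ) : Ph l ≤ l.prod := by
  induction l with
  | nil => simp [Ph]
  | cons a t ih =>
    rw [Ph_cons, List.prod_cons]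
    exact Nat.mul_le_mul (Nat.sub_le _ _) ih

theorem Ph_pos (l : List ℕ) (h : ∀ a ∈ l, 1 < a) : 0 < Ph l := by
  induction l with
  | nil => simp [Ph]
  | cons a t ih =>
    rw [Ph_cons]
    have ha := h a (List.mem_cons_self)
    exact Nat.mul_pos (by omega) (ih (fun b hb => h b (List.mem_cons_of_mem _ hb)))

/-- the next number is small, and the child is a prefix again -/
theorem next_bound {r m F L p : ℕ} {t : List ℕ} (hL : 1 ≤ L) (hmF : m < F)
    (h : p :: t ∈ Sol (r + 1) m F L) :
    L < p ∧ m * p < F * (p - 1) ∧ (F - m) * p ≤ (r + 1) * F + 1 ∧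
      t ∈ Sol r (m * p) (F * (p - 1)) p := by
  obtain ⟨hlen, hch, heq⟩ := h
  have hall := chain_all hch
  have hp : L < p := hall p (List.mem_cons_self)
  have hch' : (p :: t).IsChain (· < ·) := (List.isChain_cons_cons.1 hch).2
  have hall' := chain_all hch'
  have ht1 : ∀ a ∈ t, 1 < a := fun a ha => by
    have := hall' a ha; omega
  have hPt := Ph_pos t ht1
  have hPle := Ph_le_prod t
  refine ⟨hp, ?_, ?_, ?_, hch', ?_⟩
  · rw [Ph_cons, List.prod_cons] at heq
    by_contra hcon
    push Not at hcon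
    have h1 : F * (p - 1) * Ph t ≤ m * p * t.prod := Nat.mul_le_mul hcon hPle
    nlinarith
  · have hb := bern p (p :: t) (fun a ha => by
      rcases List.mem_cons.1 ha with rfl | ha
      · exact le_rfl
      · exact (hall' a ha).le)
    rw [List.length_cons] at hb hlen
    have hr : t.length + 1 = r + 1 := hlen
    rw [hr] at hb
    set Q := (p :: t).prod with hQ
    have hpQ : p ≤ Q := by
      rw [hQ, List.prod_cons]
      exact Nat.le_mul_of_pos_right p (lt_of_lt_of_le hPt hPle)
    obtain ⟨D, rfl⟩ : ∃ D, F = m + D := ⟨F - m, by omega⟩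
    have hD : m + D - m = D := by omega
    rw [hD]
    have hQ0 : 0 < Q := by omega
    have h1 : (m + D) * (p * Q) ≤ (m + D) * (p * Ph (p :: t) + (r + 1) * Q) :=
      Nat.mul_le_mul_left _ hb
    have h2 : (m + D) * (p * Ph (p :: t)) = p * (m * Q + 1) := by
      rw [← heq]; ring
    have h3 : (D * p) * Q ≤ ((r + 1) * (m + D) + 1) * Q := by
      nlinarith
    exact Nat.le_of_mul_le_mul_right h3 hQ0
  · rw [List.length_cons] at hlen; omega
  · rw [Ph_cons, List.prod_cons] at heq
    rw [mul_assoc, heq, mul_assoc]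

/-- finiteness and bound of the number of elements -/
def Bd (A : Set (List ℕ)) (B : ℝ) : Prop := A.Finite ∧ (A.ncard : ℝ) ≤ B

theorem Bd.mono {A : Set (List ℕ)} {B B' : ℝ} (h : Bd A B) (hB : B ≤ B') : Bd A B' :=
  ⟨h.1, h.2.trans hB⟩

theorem Bd_union (S : Finset ℕ) (A : ℕ → Set (List ℕ)) (β : ℕ → ℝ)
    (h : ∀ p ∈ S, Bd (A p) (β p)) : Bd (⋃ p ∈ S, A p) (∑ p ∈ S, β p) := by
  classical
  induction S using Finset.induction_on with
  | empty => simp [Bd]
  | insert a S ha ih =>
    rw [Finset.sum_insert ha]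
    have h1 := h a (Finset.mem_insert_self a S)
    have h2 := ih (fun p hp => h p (Finset.mem_insert_of_mem hp))
    have e : (⋃ p ∈ insert a S, A p) = A a ∪ ⋃ p ∈ S, A p := by
      rw [Finset.set_biUnion_insert]
    rw [e]
    refine ⟨h1.1.union h2.1, ?_⟩
    have h3 := Set.ncard_union_le (A a) (⋃ p ∈ S, A p)
    have h4 : ((A a ∪ ⋃ p ∈ S, A p).ncard : ℝ) ≤ (A a).ncard + (⋃ p ∈ S, A p).ncard := by
      exact_mod_cast h3
    linarith [h1.2, h2.2]

theorem Bd_sub {A A' : Set (List ℕ)} {B : ℝ} (h : Bd A' B) (hs : A ⊆ A') : Bd A B :=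
  ⟨h.1.subset hs, le_trans (by exact_mod_cast Set.ncard_le_ncard hs h.1) h.2⟩

theorem Bd_image {A : Set (List ℕ)} {B : ℝ} (f : List ℕ → List ℕ) (h : Bd A B) : Bd (f '' A) B :=
  ⟨h.1.image f, le_trans (by exact_mod_cast Set.ncard_image_le h.1) h.2⟩

/-- the possible next numbers -/
def Nx (r m F L : ℕ) : Finset ℕ :=
  (Finset.range ((r + 1) * F + 2)).filter
    (fun p => L < p ∧ m * p < F * (p - 1) ∧ (F - m) * p ≤ (r + 1) * F + 1)

theorem step {r m F L : ℕ} (hL : 1 ≤ L) (hmF : m < F) (β : ℕ → ℝ)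
    (h : ∀ p ∈ Nx r m F L, Bd (Sol r (m * p) (F * (p - 1)) p) (β p)) :
    Bd (Sol (r + 1) m F L) (∑ p ∈ Nx r m F L, β p) := by
  refine Bd_sub (Bd_union (Nx r m F L)
    (fun p => (fun t => p :: t) '' Sol r (m * p) (F * (p - 1)) p) β
    (fun p hp => Bd_image _ (h p hp))) ?_
  intro l hl
  have hlen : l.length = r + 1 := hl.1
  obtain ⟨p, t, rfl⟩ : ∃ p t, l = p :: t := by
    cases l with
    | nil => simp at hlen
    | cons p t => exact ⟨p, t, rfl⟩
  obtain ⟨h1, h2, h3, h4⟩ := next_bound hL hmF hl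
  simp only [Set.mem_iUnion]
  refine ⟨p, ?_, t, h4, rfl⟩
  rw [Nx, Finset.mem_filter, Finset.mem_range]
  refine ⟨?_, h1, h2, h3⟩
  have : p ≤ (F - m) * p := Nat.le_mul_of_pos_left p (by omega)
  omega

/-- the last two numbers correspond to a divisor -/
theorem last_two {m F L : ℕ} (hL : 1 ≤ L) (hmF : m < F) :
    Bd (Sol 2 m F L) ((F * m + (F - m)).divisors.card) := by
  obtain ⟨D, hD0, rfl⟩ : ∃ D, 0 < D ∧ F = m + D := ⟨F - m, by omega, by omega⟩
  have hD : m + D - m = D := by omega
  rw [hD]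
  set N : ℕ := (m + D) * m + D with hN
  have hstruct : ∀ l ∈ Sol 2 m (m + D) L, ∃ p q, l = [p, q] ∧ 1 < p ∧ 1 < q ∧
      (m + D) * ((p - 1) * (q - 1)) = m * (p * q) + 1 := by
    intro l hl
    obtain ⟨hlen, hch, heq⟩ := hl
    obtain ⟨p, q, rfl⟩ := List.length_eq_two.1 hlen
    have hall := chain_all hch
    refine ⟨p, q, rfl, ?_, ?_, ?_⟩
    · have := hall p (by simp); omega
    · have := hall q (by simp); omega
    · simpa [Ph] using heq
  -- facts on the pair
  have hpq : ∀ p q : ℕ, 1 < p → 1 < q → (m + D) * ((p - 1) * (q - 1)) = m * (p * q) + 1 →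
      m + D < D * p ∧ (D * p - (m + D)) * (D * q - (m + D)) = N ∧ m + D < D * q := by
    intro p q hp hq heq
    obtain ⟨u, rfl⟩ : ∃ u, p = u + 1 := ⟨p - 1, by omega⟩
    obtain ⟨v, rfl⟩ : ∃ v, q = v + 1 := ⟨q - 1, by omega⟩
    simp only [Nat.add_sub_cancel] at heq
    have hu : m < D * u := by
      by_contra hcon
      push Not at hcon
      nlinarith [Nat.mul_le_mul_right v hcon]
    have hv : m < D * v := by
      by_contra hcon
      push Not at hcon
      nlinarith [Nat.mul_le_mul_right u hcon]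
    obtain ⟨x, hx⟩ : ∃ x, D * u = m + x := ⟨D * u - m, by omega⟩
    obtain ⟨y, hy⟩ : ∃ y, D * v = m + y := ⟨D * v - m, by omega⟩
    have e1 : D * (u + 1) - (m + D) = x := by
      rw [mul_add, mul_one, hx]; omega
    have e2 : D * (v + 1) - (m + D) = y := by
      rw [mul_add, mul_one, hy]; omega
    refine ⟨by rw [mul_add, mul_one]; omega, ?_, by rw [mul_add, mul_one]; omega⟩
    rw [e1, e2]
    have h1 : D * D * ((m + D) * (u * v)) = D * D * (m * ((u + 1) * (v + 1)) + 1) := by
      rw [heq]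
    have h2 : (m + D) * ((m + x) * (m + y)) = m * ((m + x + D) * (m + y + D)) + D * D := by
      have e3 : D * D * ((m + D) * (u * v)) = (m + D) * ((D * u) * (D * v)) := by ring
      have e4 : D * D * (m * ((u + 1) * (v + 1)) + 1) =
          m * ((D * u + D) * (D * v + D)) + D * D := by ring
      rw [e3, e4, hx, hy] at h1
      exact h1
    have h3 : D * (x * y) = D * N := by
      rw [hN]
      nlinarith
    exact Nat.eq_of_mul_eq_mul_left hD0 h3
  set f : List ℕ → ℕ := fun l => D * l.headD 0 - (m + D) with hf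
  have hmaps : Set.MapsTo f (Sol 2 m (m + D) L) (↑N.divisors : Set ℕ) := by
    intro l hl
    obtain ⟨p, q, rfl, hp, hq, heq⟩ := hstruct l hl
    obtain ⟨h1, h2, h3⟩ := hpq p q hp hq heq
    rw [Finset.mem_coe, Nat.mem_divisors]
    refine ⟨⟨_, h2.symm⟩, ?_⟩
    rw [hN]; omega
  have hinj : Set.InjOn f (Sol 2 m (m + D) L) := by
    intro l hl l' hl' hff
    obtain ⟨p, q, rfl, hp, hq, heq⟩ := hstruct l hl
    obtain ⟨p', q', rfl, hp', hq', heq'⟩ := hstruct l' hl'
    obtain ⟨h1, h2, h3⟩ := hpq p q hp hq heq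
    obtain ⟨h1', h2', h3'⟩ := hpq p' q' hp' hq' heq'
    have hpp : p = p' := by
      have : D * p = D * p' := by
        simp only [hf, List.headD_cons] at hff
        omega
      exact Nat.eq_of_mul_eq_mul_left hD0 this
    subst hpp
    have hqq : q = q' := by
      have h4 : 0 < D * p - (m + D) := by omega
      have h5 : D * q - (m + D) = D * q' - (m + D) :=
        Nat.eq_of_mul_eq_mul_left h4 (h2.trans h2'.symm)
      have : D * q = D * q' := by omega
      exact Nat.eq_of_mul_eq_mul_left hD0 this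
    subst hqq
    rfl
  have hfin : (Sol 2 m (m + D) L).Finite :=
    Set.Finite.of_injOn hmaps hinj (Finset.finite_toSet _)
  refine ⟨hfin, ?_⟩
  have := Set.ncard_le_ncard_of_injOn f hmaps hinj (Finset.finite_toSet _)
  rw [Set.ncard_coe_finset] at this
  exact_mod_cast this

end Pool.Agent.Work.MP_cb106b_nt.Ct
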