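import Pool.Agent.Work.MP_cb106b_nt.Ct.Curt
import Pool.Agent.Work.MP_cb106b_nt.Ct.Tree

set_option autoImplicit false

/-!
# MP_cb106b_nt: counting solutions.  The recursion
-/

namespace Pool.Agent.Work.MP_cb106b_nt.Ct

open Finset

/-- prefixes of length `j` -/
structure Node (k K j m F L : ℕ) : Prop where
  seq : ∃ a : ℕ → ℕ, (∀ i < j, 2 ≤ a i) ∧ (∀ i, i + 1 < j → a i ≤ a (i + 1)) ∧
    (∀ i < j, a i ≤ L) ∧ m = ∏ i ∈ range j, a i ∧ F = k * ∏ i ∈ range j, (a i - 1)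
  hL : 1 ≤ L
  hmF : m < F
  hF : 2 * F ≤ k * (K + 1) ^ j * 2 ^ (2 ^ j)

variable {k K j m F L : ℕ}

theorem Node.curt (hk : 2 ≤ k) (h : Node k K j m F L) :
    (F : ℝ) ≤ 2 ^ (2 ^ j) * ((F : ℝ) - m) := by
  obtain ⟨a, h1, h2, h3, hm, hF⟩ := h.seq
  have hmF := h.hmF
  rcases Nat.eq_zero_or_pos j with h0 | h0
  · subst h0
    simp only [range_zero, prod_empty, mul_one] at hm hF
    subst hm hF
    have : (2 : ℝ) ≤ F := by exact_mod_cast hk
    norm_num
    linarith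
  · have ha1 : ∀ i < j, (1 : ℝ) ≤ (a i : ℝ) - 1 := by
      intro i hi
      have : (2 : ℝ) ≤ a i := by exact_mod_cast h1 i hi
      linarith
    have hA : (0 : ℝ) < ∏ i ∈ range j, ((a i : ℝ) - 1) :=
      prod_pos fun i hi => by have := ha1 i (mem_range.1 hi); linarith
    have hprod : ∏ i ∈ range j, (1 + 1 / ((a i : ℝ) - 1)) =
        (∏ i ∈ range j, (a i : ℝ)) / ∏ i ∈ range j, ((a i : ℝ) - 1) := by
      rw [← prod_div_distrib]
      refine prod_congr rfl fun i hi => ?_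
      have := ha1 i (mem_range.1 hi)
      field_simp
      ring
    have e1 : (∏ i ∈ range j, (a i : ℝ)) = (m : ℝ) := by rw [hm]; push_cast; rfl
    have e2 : (k : ℝ) * ∏ i ∈ range j, ((a i : ℝ) - 1) = F := by
      rw [hF]
      push_cast
      congr 1
      refine prod_congr rfl fun i hi => ?_
      have := h1 i (mem_range.1 hi)
      rw [Nat.cast_sub (by omega)]
      norm_num
    have hkR : (0 : ℝ) < k := by exact_mod_cast (show 0 < k by omega)
    have hFR : (0 : ℝ) < F := by exact_mod_cast (show 0 < F by omega)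
    have hmR : (m : ℝ) < F := by exact_mod_cast hmF
    have hc := curtiss_real k hk a j h1 h2 (by
      rw [hprod, div_lt_iff₀ hA, e1, e2]; exact hmR) h0
    rw [hprod, div_le_iff₀ hA, e1] at hc
    have hc2 : (m : ℝ) ≤ F * (1 - 1 / 2 ^ (2 ^ j)) := by
      calc (m : ℝ) ≤ k * (1 - 1 / 2 ^ (2 ^ j)) * ∏ i ∈ range j, ((a i : ℝ) - 1) := hc
        _ = (k * ∏ i ∈ range j, ((a i : ℝ) - 1)) * (1 - 1 / 2 ^ (2 ^ j)) := by ring
        _ = _ := by rw [e2]
    have hpow : (0 : ℝ) < 2 ^ (2 ^ j) := by positivity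
    have hc3 : (F : ℝ) * (1 / 2 ^ (2 ^ j)) ≤ F - m := by linarith
    rw [mul_one_div, div_le_iff₀ hpow] at hc3
    linarith

theorem mem_Nx {r m F L p : ℕ} (h : p ∈ Nx r m F L) :
    L < p ∧ m * p < F * (p - 1) ∧ (F - m) * p ≤ (r + 1) * F + 1 := by
  rw [Nx, mem_filter] at h
  exact h.2

/-- real form of the inequalities for the next number -/
theorem Nx_real {r p : ℕ} (hL : 1 ≤ L) (hmF : m < F) (h : p ∈ Nx r m F L) :
    (1 : ℝ) ≤ (p : ℝ) - 1 ∧ ((p - 1 : ℕ) : ℝ) = (p : ℝ) - 1 ∧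
    (1 : ℝ) ≤ (F : ℝ) * (p - 1) - m * p ∧
    ((F : ℝ) - m) * (p - 1) ≤ (r + 1) * F := by
  obtain ⟨h1, h2, h3⟩ := mem_Nx h
  have hp2 : 2 ≤ p := by omega
  have e1 : ((p - 1 : ℕ) : ℝ) = (p : ℝ) - 1 := by
    rw [Nat.cast_sub (by omega)]; norm_num
  have e2 : ((F - m : ℕ) : ℝ) = (F : ℝ) - m := by
    rw [Nat.cast_sub hmF.le]
  refine ⟨?_, e1, ?_, ?_⟩
  · have : (2 : ℝ) ≤ p := by exact_mod_cast hp2
    linarith
  · have h4 : m * p + 1 ≤ F * (p - 1) := h2
    have h5 : ((m * p + 1 : ℕ) : ℝ) ≤ ((F * (p - 1) : ℕ) : ℝ) := by exact_mod_cast h4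
    rw [Nat.cast_mul F, e1] at h5
    push_cast at h5
    linarith
  · have h5 : (((F - m) * p : ℕ) : ℝ) ≤ (((r + 1) * F + 1 : ℕ) : ℝ) := by exact_mod_cast h3
    rw [Nat.cast_mul (F - m), e2] at h5
    push_cast at h5
    have h6 : (1 : ℝ) ≤ (F : ℝ) - m := by
      have : m + 1 ≤ F := hmF
      have : ((m + 1 : ℕ) : ℝ) ≤ F := by exact_mod_cast this
      push_cast at this
      linarith
    linarith

/-- children of prefixes are prefixes -/
theorem Node.child {r p : ℕ} (hk : 2 ≤ k) (h : Node k K j m F L) (hr : r + 1 ≤ K)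
    (hp : p ∈ Nx r m F L) : Node k K (j + 1) (m * p) (F * (p - 1)) p ∧
    ((F * (p - 1) : ℕ) : ℝ) ≤ K * ((F : ℝ) ^ 2 / (F - m)) := by
  obtain ⟨a, h1, h2, h3, hm, hF⟩ := h.seq
  obtain ⟨p1, p2, p3⟩ := mem_Nx hp
  obtain ⟨q1, q2, q3, q4⟩ := Nx_real h.hL h.hmF hp
  have hL := h.hL
  have hmF := h.hmF
  have hcurt := h.curt hk
  have hD : (1 : ℝ) ≤ (F : ℝ) - m := by
    have : m + 1 ≤ F := hmF
    have : ((m + 1 : ℕ) : ℝ) ≤ F := by exact_mod_cast this
    push_cast at this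
    linarith
  have hKR : ((r : ℝ) + 1) ≤ K := by exact_mod_cast hr
  have hFR : (0 : ℝ) < F := by exact_mod_cast (show 0 < F by omega)
  have key : ((F * (p - 1) : ℕ) : ℝ) ≤ K * ((F : ℝ) ^ 2 / (F - m)) := by
    rw [Nat.cast_mul, q2, ← mul_div_assoc, le_div_iff₀ (by linarith)]
    calc (F : ℝ) * (p - 1) * (F - m) = F * (((F : ℝ) - m) * (p - 1)) := by ring
      _ ≤ F * ((r + 1) * F) := mul_le_mul_of_nonneg_left q4 hFR.le
      _ ≤ F * (K * F) := by gcongr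
      _ = K * (F : ℝ) ^ 2 := by ring
  refine ⟨⟨⟨fun i => if i < j then a i else p, ?_, ?_, ?_, ?_, ?_⟩, by omega, p2, ?_⟩, key⟩
  · intro i _
    simp only
    split_ifs with hi
    · exact h1 i hi
    · omega
  · intro i hi
    simp only
    by_cases hij : i + 1 < j
    · rw [if_pos (by omega), if_pos hij]
      exact h2 i hij
    · rw [if_pos (by omega), if_neg hij]
      have := h3 i (by omega)
      omega
  · intro i _
    simp only
    split_ifs with hi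
    · have := h3 i hi
      omega
    · exact le_rfl
  · rw [prod_range_succ, if_neg (lt_irrefl j), hm]
    congr 1
    exact prod_congr rfl fun i hi => by rw [if_pos (mem_range.1 hi)]
  · rw [prod_range_succ]
    simp only [lt_irrefl, if_false]
    rw [hF, mul_assoc]
    congr 2
    exact prod_congr rfl fun i hi => by rw [if_pos (mem_range.1 hi)]
  · -- size
    have hT : (F : ℝ) ^ 2 / (F - m) ≤ F * 2 ^ (2 ^ j) := by
      rw [div_le_iff₀ (by linarith)]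
      calc (F : ℝ) ^ 2 = F * F := by ring
        _ ≤ F * (2 ^ (2 ^ j) * ((F : ℝ) - m)) := mul_le_mul_of_nonneg_left hcurt hFR.le
        _ = _ := by ring
    have hFb : (2 : ℝ) * F ≤ k * (K + 1) ^ j * 2 ^ (2 ^ j) := by exact_mod_cast h.hF
    have hgoal : (2 : ℝ) * ((F * (p - 1) : ℕ) : ℝ) ≤
        k * (K + 1) ^ (j + 1) * 2 ^ (2 ^ (j + 1)) := by
      have hpow : (2 : ℝ) ^ (2 ^ (j + 1)) = 2 ^ (2 ^ j) * 2 ^ (2 ^ j) := by
        rw [← pow_add]; congr 1; ring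
      have hK0 : (0 : ℝ) ≤ K := by positivity
      calc (2 : ℝ) * ((F * (p - 1) : ℕ) : ℝ) ≤ 2 * (K * ((F : ℝ) ^ 2 / (F - m))) := by linarith
        _ ≤ 2 * (K * (F * 2 ^ (2 ^ j))) := by gcongr
        _ = K * 2 ^ (2 ^ j) * (2 * F) := by ring
        _ ≤ K * 2 ^ (2 ^ j) * (k * (K + 1) ^ j * 2 ^ (2 ^ j)) := by gcongr
        _ ≤ (K + 1) * 2 ^ (2 ^ j) * (k * (K + 1) ^ j * 2 ^ (2 ^ j)) := by
            gcongr; linarith
        _ = _ := by rw [hpow]; ring
    exact_mod_cast hgoal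

/-- harmonic sum over the children -/
theorem sum_inv {r : ℕ} (hL : 1 ≤ L) (hmF : m < F) :
    ∑ p ∈ Nx r m F L, 1 / ((F : ℝ) * (p - 1) - m * p) ≤ 1 + Real.log ((r + 1) * F) := by
  set Y : ℕ := (r + 1) * F with hY
  set y : ℕ → ℕ := fun p => F * (p - 1) - m * p with hy
  have hcast : ∀ p ∈ Nx r m F L, (y p : ℝ) = (F : ℝ) * (p - 1) - m * p := by
    intro p hp
    obtain ⟨p1, p2, p3⟩ := mem_Nx hp
    obtain ⟨q1, q2, q3, q4⟩ := Nx_real hL hmF hp
    simp only [hy]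
    rw [Nat.cast_sub p2.le, Nat.cast_mul, Nat.cast_mul, q2]
  have hinj : Set.InjOn y (Nx r m F L : Set ℕ) := by
    intro p hp p' hp' hpp
    have e1 := hcast p hp
    have e2 := hcast p' hp'
    rw [hpp, e2] at e1
    have hD : (0 : ℝ) < (F : ℝ) - m := by
      have : (m : ℝ) < F := by exact_mod_cast hmF
      linarith
    have h4 : ((F : ℝ) - m) * p' = ((F : ℝ) - m) * p := by linarith
    have h5 := mul_left_cancel₀ hD.ne' h4
    exact_mod_cast h5.symm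
  have hsub : (Nx r m F L).image y ⊆ Icc 1 Y := by
    intro z hz
    rw [mem_image] at hz
    obtain ⟨p, hp, rfl⟩ := hz
    obtain ⟨p1, p2, p3⟩ := mem_Nx hp
    obtain ⟨q1, q2, q3, q4⟩ := Nx_real hL hmF hp
    rw [mem_Icc]
    refine ⟨?_, ?_⟩
    · simp only [hy]; omega
    · have h1 : (y p : ℝ) ≤ ((r + 1) * F : ℝ) := by
        rw [hcast p hp]
        have : (0 : ℝ) ≤ m := by positivity
        linarith
      have h2 : (y p : ℝ) ≤ ((Y : ℕ) : ℝ) := by rw [hY]; push_cast; exact h1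
      exact_mod_cast h2
  calc ∑ p ∈ Nx r m F L, 1 / ((F : ℝ) * (p - 1) - m * p)
      = ∑ p ∈ Nx r m F L, 1 / (y p : ℝ) := sum_congr rfl fun p hp => by rw [hcast p hp]
    _ = ∑ z ∈ (Nx r m F L).image y, 1 / (z : ℝ) := by
        rw [sum_image hinj]
    _ ≤ ∑ z ∈ Icc 1 Y, 1 / (z : ℝ) :=
        sum_le_sum_of_subset_of_nonneg hsub fun z _ _ => by positivity
    _ = ((harmonic Y : ℚ) : ℝ) := by
        rw [harmonic_eq_sum_Icc]
        push_cast
        exact sum_congr rfl fun z _ => by rw [one_div]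
    _ ≤ 1 + Real.log Y := harmonic_le_one_add_log Y
    _ = 1 + Real.log ((r + 1) * F) := by rw [hY]; push_cast; rfl

/-- number of children -/
theorem card_Nx (hL : 1 ≤ L) (hmF : m < F) :
    ((Nx 2 m F L).card : ℝ) ≤ 4 * (F / ((F : ℝ) - m)) := by
  have hD : 0 < F - m := by omega
  have h1 : (Nx 2 m F L) ⊆ Icc 1 ((3 * F + 1) / (F - m)) := by
    intro p hp
    obtain ⟨p1, p2, p3⟩ := mem_Nx hp
    rw [mem_Icc]
    refine ⟨by omega, ?_⟩
    rw [Nat.le_div_iff_mul_le hD]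
    linarith [p3]
  have h2 := card_le_card h1
  rw [Nat.card_Icc, Nat.add_sub_cancel] at h2
  have hDR : (1 : ℝ) ≤ (F : ℝ) - m := by
    have : m + 1 ≤ F := hmF
    have : ((m + 1 : ℕ) : ℝ) ≤ F := by exact_mod_cast this
    push_cast at this
    linarith
  have h3 : (((3 * F + 1) / (F - m) : ℕ) : ℝ) ≤ (3 * F + 1) / ((F : ℝ) - m) := by
    refine Nat.cast_div_le.trans (le_of_eq ?_)
    rw [Nat.cast_sub hmF.le]
    push_cast
    rfl
  have hF1 : (1 : ℝ) ≤ F := by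
    have : (0 : ℝ) ≤ m := by positivity
    linarith
  calc ((Nx 2 m F L).card : ℝ) ≤ (((3 * F + 1) / (F - m) : ℕ) : ℝ) := by exact_mod_cast h2
    _ ≤ (3 * F + 1) / ((F : ℝ) - m) := h3
    _ ≤ (4 * F) / ((F : ℝ) - m) := by
        apply div_le_div_of_nonneg_right _ (by linarith)
        linarith
    _ = _ := by ring

/-- the recursion -/
theorem recursion (k K : ℕ) (hk : 2 ≤ k) (hK : 4 ≤ K) (Δ h : ℝ) (hΔ0 : 0 ≤ Δ)
    (hΔ : ∀ N : ℕ, 1 ≤ N → N ≤ (k * (K + 1) ^ K * 2 ^ (2 ^ (K - 2))) ^ 2 →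
      (N.divisors.card : ℝ) ≤ Δ)
    (hh : 1 + Real.log (K * (k * (K + 1) ^ K * 2 ^ (2 ^ K))) ≤ h) (r : ℕ) (hr4 : 4 ≤ r) :
    r ≤ K → ∀ m F L : ℕ, Node k K (K - r) m F L →
    Bd (Sol r m F L) (4 * Δ * K * h * (K ^ 2 * h * k * (K + 1) ^ K) ^ (r - 4) *
      (2 ^ (2 ^ (K - 3)) / 2 ^ (2 ^ (K - r + 1))) * ((F : ℝ) ^ 2 / (F - m))) := by
  have hkR : (2 : ℝ) ≤ k := by exact_mod_cast hk
  have hKR : (4 : ℝ) ≤ K := by exact_mod_cast hK
  -- sizes
  have hFsize : ∀ {j m F L : ℕ}, Node k K j m F L → j ≤ K →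
      (F : ℝ) ≤ k * (K + 1) ^ K * 2 ^ (2 ^ K) := by
    intro j m F L hn hj
    have h1 : (2 : ℝ) * F ≤ k * (K + 1) ^ j * 2 ^ (2 ^ j) := by exact_mod_cast hn.hF
    have h2 : (k : ℝ) * (K + 1) ^ j * 2 ^ (2 ^ j) ≤ k * (K + 1) ^ K * 2 ^ (2 ^ K) := by
      gcongr <;> linarith
    have h3 : (0 : ℝ) ≤ F := by positivity
    linarith
  have hh1 : ∀ {j m F L : ℕ} {r : ℕ}, Node k K j m F L → j ≤ K → r + 1 ≤ K →
      ∑ p ∈ Nx r m F L, 1 / ((F : ℝ) * (p - 1) - m * p) ≤ h := by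
    intro j m F L r hn hj hr
    refine (sum_inv hn.hL hn.hmF).trans (le_trans ?_ hh)
    have hF0 : (0 : ℝ) < F := by
      have := hn.hmF
      exact_mod_cast (show 0 < F by omega)
    have h2 : ((r : ℝ) + 1) ≤ K := by exact_mod_cast hr
    have h3 : ((r : ℝ) + 1) * F ≤ K * (k * (K + 1) ^ K * 2 ^ (2 ^ K)) :=
      mul_le_mul h2 (hFsize hn hj) hF0.le (by positivity)
    have := Real.log_le_log (by positivity) h3
    linarith
  have hDpos : ∀ {j m F L : ℕ}, Node k K j m F L → (1 : ℝ) ≤ (F : ℝ) - m := by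
    intro j m F L hn
    have : m + 1 ≤ F := hn.hmF
    have : ((m + 1 : ℕ) : ℝ) ≤ F := by exact_mod_cast this
    push_cast at this
    linarith
  have hh0 : 0 ≤ h := by
    refine le_trans ?_ hh
    have : 0 ≤ Real.log (K * (k * (K + 1) ^ K * 2 ^ (2 ^ K))) := by
      apply Real.log_nonneg
      have h1 : (1 : ℝ) ≤ (K + 1) ^ K := one_le_pow₀ (by linarith)
      have h2 : (1 : ℝ) ≤ 2 ^ (2 ^ K) := one_le_pow₀ (by norm_num)
      have h3 : (1 : ℝ) ≤ k * (K + 1) ^ K := by nlinarith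
      have h4 : (1 : ℝ) ≤ k * (K + 1) ^ K * 2 ^ (2 ^ K) := by nlinarith
      nlinarith
    linarith
  -- two left
  have c2 : ∀ m F L : ℕ, Node k K (K - 2) m F L → Bd (Sol 2 m F L) Δ := by
    intro m F L hn
    refine (last_two hn.hL hn.hmF).mono (hΔ _ ?_ ?_)
    · have := hn.hmF; omega
    · have h1 : F * m + (F - m) ≤ F ^ 2 := by
        have := hn.hmF
        obtain ⟨D, rfl⟩ : ∃ D, F = m + D := ⟨F - m, by omega⟩
        have : m + D - m = D := by omega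
        rw [this]
        have hD0 : 1 ≤ D := by omega
        nlinarith
      refine h1.trans (Nat.pow_le_pow_left ?_ 2)
      have h2 := hn.hF
      have h3 : k * (K + 1) ^ (K - 2) * 2 ^ (2 ^ (K - 2)) ≤
          k * (K + 1) ^ K * 2 ^ (2 ^ (K - 2)) := by
        gcongr
        · omega
        · omega
      omega
  -- three left
  have c3 : ∀ m F L : ℕ, Node k K (K - 3) m F L →
      Bd (Sol 3 m F L) (4 * Δ * (F / ((F : ℝ) - m))) := by
    intro m F L hn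
    have h1 : Bd (Sol (2 + 1) m F L) (∑ p ∈ Nx 2 m F L, Δ) := by
      refine step hn.hL hn.hmF (fun _ => Δ) ?_
      intro p hp
      have h2 := (hn.child hk (by omega) hp).1
      have e : K - 3 + 1 = K - 2 := by omega
      rw [e] at h2
      exact c2 _ _ _ h2
    refine Bd.mono h1 ?_
    rw [sum_const, nsmul_eq_mul]
    have h3 := card_Nx hn.hL hn.hmF
    calc ((Nx 2 m F L).card : ℝ) * Δ ≤ 4 * (F / ((F : ℝ) - m)) * Δ :=
          mul_le_mul_of_nonneg_right h3 hΔ0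
      _ = _ := by ring
  -- the child difference
  have hdiff : ∀ {j m F L r p : ℕ}, Node k K j m F L → p ∈ Nx r m F L →
      ((F * (p - 1) : ℕ) : ℝ) - ((m * p : ℕ) : ℝ) = (F : ℝ) * (p - 1) - m * p := by
    intro j m F L r p hn hp
    obtain ⟨q1, q2, q3, q4⟩ := Nx_real hn.hL hn.hmF hp
    rw [Nat.cast_mul, Nat.cast_mul, q2]
  induction r, hr4 using Nat.le_induction with
  | base =>
    intro _ m F L hn
    have hD := hDpos hn
    have hstep : Bd (Sol (3 + 1) m F L) (∑ p ∈ Nx 3 m F L,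
        4 * Δ * (((F * (p - 1) : ℕ) : ℝ) / (((F * (p - 1) : ℕ) : ℝ) - ((m * p : ℕ) : ℝ)))) := by
      refine step hn.hL hn.hmF _ ?_
      intro p hp
      have h2 := (hn.child hk (by omega) hp).1
      have e : K - 4 + 1 = K - 3 := by omega
      rw [e] at h2
      exact c3 _ _ _ h2
    refine Bd.mono hstep ?_
    have e2 : (2 : ℝ) ^ (2 ^ (K - 3)) / 2 ^ (2 ^ (K - 4 + 1)) = 1 := by
      have : K - 4 + 1 = K - 3 := by omega
      rw [this]
      exact div_self (by positivity)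
    rw [e2, Nat.sub_self, pow_zero, mul_one, mul_one]
    have hT0 : 0 ≤ (F : ℝ) ^ 2 / (F - m) := by
      apply div_nonneg (by positivity); linarith
    calc ∑ p ∈ Nx 3 m F L,
        4 * Δ * (((F * (p - 1) : ℕ) : ℝ) / (((F * (p - 1) : ℕ) : ℝ) - ((m * p : ℕ) : ℝ)))
        ≤ ∑ p ∈ Nx 3 m F L, 4 * Δ * (K * ((F : ℝ) ^ 2 / (F - m))) *
            (1 / ((F : ℝ) * (p - 1) - m * p)) := by
          refine sum_le_sum fun p hp => ?_
          obtain ⟨q1, q2, q3, q4⟩ := Nx_real hn.hL hn.hmF hp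
          rw [hdiff hn hp, mul_assoc (4 * Δ), mul_one_div]
          refine mul_le_mul_of_nonneg_left ?_ (by positivity)
          exact div_le_div_of_nonneg_right (hn.child hk (by omega) hp).2 (by linarith)
      _ = 4 * Δ * (K * ((F : ℝ) ^ 2 / (F - m))) *
            ∑ p ∈ Nx 3 m F L, (1 / ((F : ℝ) * (p - 1) - m * p)) := by rw [mul_sum]
      _ ≤ 4 * Δ * (K * ((F : ℝ) ^ 2 / (F - m))) * h :=
          mul_le_mul_of_nonneg_left (hh1 hn (by omega) (by omega)) (by positivity)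
      _ = _ := by ring
  | succ r hr ih =>
    intro hrK m F L hn
    have hD := hDpos hn
    have ih' := ih (by omega)
    set E : ℝ := 4 * Δ * K * h * (K ^ 2 * h * k * (K + 1) ^ K) ^ (r - 4) *
      (2 ^ (2 ^ (K - 3)) / 2 ^ (2 ^ (K - r + 1))) with hE
    have hE0 : 0 ≤ E := by positivity
    have hstep : Bd (Sol (r + 1) m F L) (∑ p ∈ Nx r m F L,
        E * (((F * (p - 1) : ℕ) : ℝ) ^ 2 / (((F * (p - 1) : ℕ) : ℝ) - ((m * p : ℕ) : ℝ)))) := by
      refine step hn.hL hn.hmF _ ?_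
      intro p hp
      have h2 := (hn.child hk (by omega) hp).1
      have e : K - (r + 1) + 1 = K - r := by omega
      rw [e] at h2
      exact ih' _ _ _ h2
    refine Bd.mono hstep ?_
    set T : ℝ := (F : ℝ) ^ 2 / (F - m) with hT
    have hT0 : 0 ≤ T := by
      rw [hT]
      apply div_nonneg (by positivity); linarith
    have hTmax : T ≤ k * (K + 1) ^ K * 2 ^ (2 ^ (K - r)) := by
      have h1 := hn.curt hk
      have hF0 : (0 : ℝ) ≤ F := by positivity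
      have h2 : T ≤ F * 2 ^ (2 ^ (K - (r + 1))) := by
        rw [hT, div_le_iff₀ (by linarith)]
        calc (F : ℝ) ^ 2 = F * F := by ring
          _ ≤ F * (2 ^ (2 ^ (K - (r + 1))) * ((F : ℝ) - m)) := mul_le_mul_of_nonneg_left h1 hF0
          _ = _ := by ring
      have h3 : (2 : ℝ) * F ≤ k * (K + 1) ^ (K - (r + 1)) * 2 ^ (2 ^ (K - (r + 1))) := by
        exact_mod_cast hn.hF
      have hpow : (2 : ℝ) ^ (2 ^ (K - r)) =
          2 ^ (2 ^ (K - (r + 1))) * 2 ^ (2 ^ (K - (r + 1))) := by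
        rw [← pow_add, ← two_mul, ← pow_succ']
        congr 2
        omega
      have h4 : ((K : ℝ) + 1) ^ (K - (r + 1)) ≤ (K + 1) ^ K :=
        pow_le_pow_right₀ (by linarith) (by omega)
      calc T ≤ F * 2 ^ (2 ^ (K - (r + 1))) := h2
        _ ≤ (k * (K + 1) ^ (K - (r + 1)) * 2 ^ (2 ^ (K - (r + 1)))) *
              2 ^ (2 ^ (K - (r + 1))) := by
            gcongr
            linarith
        _ ≤ (k * (K + 1) ^ K * 2 ^ (2 ^ (K - (r + 1)))) * 2 ^ (2 ^ (K - (r + 1))) := by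
            gcongr
        _ = _ := by rw [hpow]; ring
    have hEr : 4 * Δ * K * h * (K ^ 2 * h * k * (K + 1) ^ K) ^ (r + 1 - 4) *
        (2 ^ (2 ^ (K - 3)) / 2 ^ (2 ^ (K - (r + 1) + 1))) =
        E * (K ^ 2 * h * (k * (K + 1) ^ K * 2 ^ (2 ^ (K - r)))) := by
      have e1 : r + 1 - 4 = (r - 4) + 1 := by omega
      have e2 : K - (r + 1) + 1 = K - r := by omega
      have e3 : (2 : ℝ) ^ (2 ^ (K - r + 1)) = 2 ^ (2 ^ (K - r)) * 2 ^ (2 ^ (K - r)) := by
        rw [← pow_add, ← two_mul, ← pow_succ']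
      rw [e1, e2, hE, e3, pow_succ]
      have h5 : (0 : ℝ) < 2 ^ (2 ^ (K - r)) := by positivity
      field_simp
    rw [hEr]
    calc ∑ p ∈ Nx r m F L,
        E * (((F * (p - 1) : ℕ) : ℝ) ^ 2 / (((F * (p - 1) : ℕ) : ℝ) - ((m * p : ℕ) : ℝ)))
        ≤ ∑ p ∈ Nx r m F L, E * (K * T) ^ 2 * (1 / ((F : ℝ) * (p - 1) - m * p)) := by
          refine sum_le_sum fun p hp => ?_
          obtain ⟨q1, q2, q3, q4⟩ := Nx_real hn.hL hn.hmF hp
          rw [hdiff hn hp, mul_assoc E, mul_one_div]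
          refine mul_le_mul_of_nonneg_left ?_ hE0
          refine div_le_div_of_nonneg_right ?_ (by linarith)
          exact pow_le_pow_left₀ (by positivity) (hn.child hk (by omega) hp).2 2
      _ = E * (K * T) ^ 2 * ∑ p ∈ Nx r m F L, (1 / ((F : ℝ) * (p - 1) - m * p)) := by
          rw [mul_sum]
      _ ≤ E * (K * T) ^ 2 * h :=
          mul_le_mul_of_nonneg_left (hh1 hn (by omega) (by omega)) (by positivity)
      _ = E * (K ^ 2 * h * T) * T := by ring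
      _ ≤ E * (K ^ 2 * h * (k * (K + 1) ^ K * 2 ^ (2 ^ (K - r)))) * T := by gcongr

/-- number of increasing integer sequences of length `K` with quotient `k` -/
theorem count_k (k K : ℕ) (hk : 2 ≤ k) (hK : 4 ≤ K) (Δ h : ℝ) (hΔ0 : 0 ≤ Δ)
    (hΔ : ∀ N : ℕ, 1 ≤ N → N ≤ (k * (K + 1) ^ K * 2 ^ (2 ^ (K - 2))) ^ 2 →
      (N.divisors.card : ℝ) ≤ Δ)
    (hh : 1 + Real.log (K * (k * (K + 1) ^ K * 2 ^ (2 ^ K))) ≤ h) :
    Bd (Sol K 1 k 1) (4 * Δ * K * h * (K ^ 2 * h * k * (K + 1) ^ K) ^ (K - 4) *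
      2 ^ (2 ^ (K - 3)) * (2 * k)) := by
  have hkR : (2 : ℝ) ≤ k := by exact_mod_cast hk
  have hKR : (4 : ℝ) ≤ K := by exact_mod_cast hK
  have hn : Node k K (K - K) 1 k 1 := by
    rw [Nat.sub_self]
    refine ⟨⟨fun _ => 2, by simp, by simp, by simp, by simp, by simp⟩, le_rfl, by omega, ?_⟩
    simp; omega
  have h1 := recursion k K hk hK Δ h hΔ0 hΔ hh K hK le_rfl 1 k 1 hn
  have hh0 : 0 ≤ h := by
    refine le_trans ?_ hh
    have : 0 ≤ Real.log (K * (k * (K + 1) ^ K * 2 ^ (2 ^ K))) := by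
      apply Real.log_nonneg
      have h1 : (1 : ℝ) ≤ (K + 1) ^ K := one_le_pow₀ (by linarith)
      have h2 : (1 : ℝ) ≤ 2 ^ (2 ^ K) := one_le_pow₀ (by norm_num)
      have h3 : (1 : ℝ) ≤ k * (K + 1) ^ K := by nlinarith
      have h4 : (1 : ℝ) ≤ k * (K + 1) ^ K * 2 ^ (2 ^ K) := by nlinarith
      nlinarith
    linarith
  refine h1.mono ?_
  have h2 : (2 : ℝ) ^ (2 ^ (K - 3)) / 2 ^ (2 ^ (K - K + 1)) ≤ 2 ^ (2 ^ (K - 3)) := by
    apply div_le_self (by positivity)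
    exact one_le_pow₀ (by norm_num)
  have h3 : (k : ℝ) ^ 2 / (k - (1 : ℕ)) ≤ 2 * k := by
    rw [div_le_iff₀ (by push_cast; linarith)]
    push_cast
    nlinarith
  have h4 : 0 ≤ (k : ℝ) ^ 2 / (k - (1 : ℕ)) := by
    apply div_nonneg (by positivity)
    push_cast
    linarith
  gcongr

end Pool.Agent.Work.MP_cb106b_nt.Ct
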